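import Mathlib

open Polynomial Set Filter Topology Metric

namespace Pool.Agent.LibNewton

/-- The map `y ↦ y - P(y)/D(y)`. -/
noncomputable def nm (P D : ℂ[X]) (y : ℂ) : ℂ := y - P.eval y / D.eval y

/-- Standing hypotheses for the covering argument. -/
structure Setup (P D : ℂ[X]) (R₀ C₀ : ℝ) : Prop where
  R0 : 0 < R₀
  C0 : 0 ≤ C₀
  nocommon : ∀ y, P.eval y = 0 → D.eval y ≠ 0
  droot : ∃ y, D.eval y = 0
  quot : ∀ y, R₀ ≤ ‖y‖ → ‖P.eval y / D.eval y‖ ≤ C₀
  crit : ∀ y, D.eval y ≠ 0 → P.eval y ≠ 0 → deriv (nm P D) y ≠ 0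

variable {P D : ℂ[X]} {R₀ C₀ : ℝ}

theorem hasStrictDerivAt_nm {y : ℂ} (hy : D.eval y ≠ 0) :
    HasStrictDerivAt (nm P D)
      (1 - (P.derivative.eval y * D.eval y - P.eval y * D.derivative.eval y) / D.eval y ^ 2) y := by
  unfold nm
  exact (hasStrictDerivAt_id y).sub ((P.hasStrictDerivAt y).div (D.hasStrictDerivAt y) hy)

theorem nm_eq_iff (S : Setup P D R₀ C₀) {x y : ℂ} :
    (D.eval y ≠ 0 ∧ nm P D y = x) ↔ (y - x) * D.eval y = P.eval y := by
  constructor
  · rintro ⟨hD, rfl⟩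
    unfold nm
    field_simp
    ring
  · intro h
    have hD : D.eval y ≠ 0 := by
      intro h0
      rw [h0, mul_zero] at h
      exact S.nocommon y h.symm h0
    refine ⟨hD, ?_⟩
    unfold nm
    rw [← h]
    field_simp
    ring

theorem norm_le_of_nm (S : Setup P D R₀ C₀) {y : ℂ} : ‖y‖ ≤ max R₀ (‖nm P D y‖ + C₀) := by
  by_cases h : R₀ ≤ ‖y‖
  · refine le_max_of_le_right ?_
    have h1 : y = nm P D y + P.eval y / D.eval y := by unfold nm; ring
    calc ‖y‖ = ‖nm P D y + P.eval y / D.eval y‖ := by rw [← h1]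
      _ ≤ ‖nm P D y‖ + ‖P.eval y / D.eval y‖ := norm_add_le _ _
      _ ≤ _ := by gcongr; exact S.quot y h
  · exact le_max_of_le_left (not_le.mp h).le

theorem covering (S : Setup P D R₀ C₀) :
    IsCoveringMapOn (fun y : {y : ℂ // D.eval y ≠ 0} => nm P D y) {x | P.eval x ≠ 0} := by
  have hcont : Continuous (fun y : {y : ℂ // D.eval y ≠ 0} => nm P D y) := by
    rw [continuous_iff_continuousAt]
    intro y
    exact (hasStrictDerivAt_nm y.2).hasDerivAt.continuousAt.comp continuousAt_subtype_val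
  have hproper : IsProperMap (fun y : {y : ℂ // D.eval y ≠ 0} => nm P D y) := by
    rw [isProperMap_iff_isCompact_preimage]
    refine ⟨hcont, fun K hK => ?_⟩
    rw [Subtype.isCompact_iff]
    obtain ⟨b, hb⟩ := hK.isBounded.exists_norm_le
    have key : (Subtype.val '' ((fun y : {y : ℂ // D.eval y ≠ 0} => nm P D y) ⁻¹' K)) =
        Prod.snd '' ((K ×ˢ closedBall (0:ℂ) (max R₀ (b + C₀))) ∩
          {q : ℂ × ℂ | (q.2 - q.1) * D.eval q.2 = P.eval q.2}) := by
      ext y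
      constructor
      · rintro ⟨⟨y, hy⟩, hyK, rfl⟩
        refine ⟨(nm P D y, y), ⟨⟨hyK, ?_⟩, ?_⟩, rfl⟩
        · simp only [mem_closedBall, dist_zero_right]
          refine (norm_le_of_nm S).trans ?_
          gcongr
          exact hb _ hyK
        · exact (nm_eq_iff S).1 ⟨hy, rfl⟩
      · rintro ⟨⟨x, y⟩, ⟨⟨hxK, -⟩, hxy⟩, rfl⟩
        obtain ⟨h1, h2⟩ := (nm_eq_iff S).2 hxy
        refine ⟨⟨y, h1⟩, ?_, rfl⟩
        simp only [mem_preimage, h2]
        exact hxK
    rw [key]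
    refine IsCompact.image ?_ continuous_snd
    refine (hK.prod (isCompact_closedBall _ _)).inter_right ?_
    refine isClosed_eq ?_ ?_
    · fun_prop
    · fun_prop
  refine hproper.isClosedMap.isCoveringMapOn_of_isLocalHomeomorphOn ?_ ?_
  · intro x _
    have hne : (X - C x) * D - P ≠ 0 := by
      intro h0
      obtain ⟨y, hy⟩ := S.droot
      have := congrArg (Polynomial.eval y) h0
      simp only [eval_sub, eval_mul, eval_X, eval_C, hy, mul_zero, zero_sub, eval_zero,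
        neg_eq_zero] at this
      exact S.nocommon y this hy
    have hfin : ({y | ((X - C x) * D - P).IsRoot y} : Set ℂ).Finite :=
      Polynomial.finite_setOfPred_isRoot hne
    refine Finite.of_finite_image (f := Subtype.val) (hfin.subset ?_) Subtype.val_injective.injOn
    rintro _ ⟨⟨y, hy⟩, hyx, rfl⟩
    have := (nm_eq_iff S (x := x) (y := y)).1 ⟨hy, hyx⟩
    simp [IsRoot, this]
  · have hval : IsLocalHomeomorphOn (Subtype.val : {y : ℂ // D.eval y ≠ 0} → ℂ)
        ((fun y : {y : ℂ // D.eval y ≠ 0} => nm P D y) ⁻¹' {x | P.eval x ≠ 0}) := by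
      have hopen : IsOpen {y : ℂ | D.eval y ≠ 0} :=
        isOpen_ne_fun (by fun_prop) continuous_const
      have := (IsOpen.isOpenEmbedding_subtypeVal hopen).isLocalHomeomorph
      exact this.isLocalHomeomorphOn
    have hnm : IsLocalHomeomorphOn (nm P D) {y | D.eval y ≠ 0 ∧ P.eval y ≠ 0} := by
      rintro y ⟨hy1, hy2⟩
      have hs := hasStrictDerivAt_nm (P := P) hy1
      have hd := S.crit y hy1 hy2
      rw [hs.hasDerivAt.deriv] at hd
      exact ⟨_, (hs.hasStrictFDerivAt_equiv hd).mem_toOpenPartialHomeomorph_source, by simp⟩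
    refine hnm.comp hval ?_
    rintro ⟨y, hy⟩ hyV
    refine ⟨hy, fun h0 => hyV ?_⟩
    simp [nm, h0]

theorem lift_step (S : Setup P D R₀ C₀) {c : ℂ} {r : ℝ} (hr : 0 < r) {φ : ℂ → ℂ}
    (hφ : DifferentiableOn ℂ φ (ball c r)) (hV : ∀ w ∈ ball c r, P.eval (φ w) ≠ 0)
    {y₀ : ℂ} (hy₀ : D.eval y₀ ≠ 0) (h0 : nm P D y₀ = φ c) :
    ∃ ψ : ℂ → ℂ, DifferentiableOn ℂ ψ (ball c r) ∧ ψ c = y₀ ∧
      ∀ w ∈ ball c r, D.eval (ψ w) ≠ 0 ∧ nm P D (ψ w) = φ w ∧ P.eval (ψ w) ≠ 0 := by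
  classical
  have hc : c ∈ ball c r := mem_ball_self hr
  have : Nonempty (ball c r) := ⟨⟨c, hc⟩⟩
  have : ContractibleSpace (ball c r) :=
    Convex.contractibleSpace (convex_ball c r) ⟨c, hc⟩
  have : SimplyConnectedSpace (ball c r) := SimplyConnectedSpace.ofContractible _
  have : LocallyPathConnectedSpace (ball c r) := (isOpen_ball (x := c) (ε := r)).locallyPathConnectedSpace
  obtain ⟨F, ⟨hF0, hF⟩, -⟩ := (covering S).existsUnique_continuousMap_lifts
    ⟨fun w : ball c r => φ w, continuousOn_iff_continuous_domRestrict.mp hφ.continuousOn⟩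
    (a₀ := ⟨c, hc⟩) (e₀ := ⟨y₀, hy₀⟩) h0 (fun w => hV w w.2)
  let ψ : ℂ → ℂ := fun w => if hw : w ∈ ball c r then (F ⟨w, hw⟩ : ℂ) else 0
  have hψ : ∀ w (hw : w ∈ ball c r), ψ w = F ⟨w, hw⟩ := fun w hw => by simp only [ψ, dif_pos hw]
  have hD : ∀ w ∈ ball c r, D.eval (ψ w) ≠ 0 := fun w hw => by
    rw [hψ w hw]; exact (F ⟨w, hw⟩).2
  have hN : ∀ w ∈ ball c r, nm P D (ψ w) = φ w := fun w hw => by
    rw [hψ w hw]
    exact congrFun hF ⟨w, hw⟩
  have hP : ∀ w ∈ ball c r, P.eval (ψ w) ≠ 0 := fun w hw h => by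
    apply hV w hw
    rw [← hN w hw]
    simp [nm, h]
  have hcont : ContinuousOn ψ (ball c r) := by
    rw [continuousOn_iff_continuous_domRestrict]
    have : (ball c r).domRestrict ψ = fun w => (F w : ℂ) := by
      funext w
      exact hψ w w.2
    rw [this]
    exact continuous_subtype_val.comp F.continuous
  refine ⟨ψ, fun w hw => ?_, ?_, fun w hw => ⟨hD w hw, hN w hw, hP w hw⟩⟩
  · have hs := hasStrictDerivAt_nm (P := P) (hD w hw)
    have hd := S.crit _ (hD w hw) (hP w hw)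
    rw [hs.hasDerivAt.deriv] at hd
    have hleft := hs.eventually_left_inverse hd
    have hnhds : ball c r ∈ 𝓝 w := isOpen_ball.mem_nhds hw
    have hcw : ContinuousAt ψ w := hcont.continuousAt hnhds
    have hφd : DifferentiableAt ℂ φ w := hφ.differentiableAt hnhds
    have hinv : HasDerivAt (hs.localInverse _ _ _ hd) _ (nm P D (ψ w)) :=
      (hs.to_localInverse hd).hasDerivAt
    have heq : ψ =ᶠ[𝓝 w] fun x => hs.localInverse _ _ _ hd (φ x) := by
      filter_upwards [hcw.eventually hleft, hnhds] with x hx hxb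
      rw [← hN x hxb]
      exact hx.symm
    refine (DifferentiableAt.congr_of_eventuallyEq ?_ heq).differentiableWithinAt
    refine DifferentiableAt.comp w ?_ hφd
    rw [← hN w hw]
    exact hinv.differentiableAt
  · rw [hψ c hc, hF0]

theorem lift_iter (S : Setup P D R₀ C₀) {c : ℂ} {r : ℝ} (hr : 0 < r)
    (hV : ∀ w ∈ ball c r, P.eval w ≠ 0) (k : ℕ) :
    ∀ y₀ : ℂ, (∀ i < k, D.eval ((nm P D)^[i] y₀) ≠ 0) → (nm P D)^[k] y₀ = c →
    ∃ ψ : ℂ → ℂ, DifferentiableOn ℂ ψ (ball c r) ∧ ψ c = y₀ ∧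
      ∀ w ∈ ball c r, (0 < k → D.eval (ψ w) ≠ 0) ∧ (nm P D)^[k] (ψ w) = w ∧
        P.eval (ψ w) ≠ 0 ∧ ‖ψ w‖ ≤ max R₀ ‖w‖ + k * C₀ := by
  induction k with
  | zero =>
    intro y₀ _ h
    refine ⟨id, differentiableOn_id, h.symm, fun w hw => ⟨fun h => absurd h (lt_irrefl _), rfl,
      hV w hw, ?_⟩⟩
    simp
  | succ k ih =>
    intro y₀ hy h
    obtain ⟨φ, hφ, hφc, hφw⟩ := ih (nm P D y₀) (fun i hi => by
      have := hy (i + 1) (by omega)
      rwa [Function.iterate_succ_apply] at this) (by rwa [Function.iterate_succ_apply] at h)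
    obtain ⟨ψ, hψ, hψc, hψw⟩ := lift_step S hr hφ (fun w hw => (hφw w hw).2.2.1)
      (y₀ := y₀) (hy 0 (by omega)) hφc.symm
    refine ⟨ψ, hψ, hψc, fun w hw => ⟨fun _ => (hψw w hw).1, ?_, (hψw w hw).2.2, ?_⟩⟩
    · rw [Function.iterate_succ_apply, (hψw w hw).2.1]
      exact (hφw w hw).2.1
    · refine (norm_le_of_nm S).trans ?_
      rw [(hψw w hw).2.1]
      have h1 := (hφw w hw).2.2.2
      have hC := S.C0
      refine max_le ?_ ?_
      · have : R₀ ≤ max R₀ ‖w‖ := le_max_left _ _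
        push_cast
        nlinarith [mul_nonneg (Nat.cast_nonneg (α := ℝ) k) hC]
      · push_cast
        linarith


/-- A quantitative open mapping theorem. -/
theorem bloch {h : ℂ → ℂ} {c : ℂ} {r M β : ℝ} (hr : 0 < r) (hM : 0 < M) (hβ : 0 < β)
    (hd : DifferentiableOn ℂ h (ball c r)) (hb : ∀ z ∈ ball c r, ‖h z‖ ≤ M)
    (hβ' : β ≤ ‖deriv h c‖) :
    ball (h c) (β ^ 2 * r ^ 2 / (512 * M)) ⊆ h '' ball c r := by
  have h1 : ∀ z ∈ ball c (3 * r / 4), ‖deriv h z‖ ≤ M / (r / 8) := by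
    intro z hz
    have hsub : closedBall z (r / 8) ⊆ ball c r := by
      intro w hw
      rw [mem_closedBall] at hw
      rw [mem_ball] at hz ⊢
      have := dist_triangle w z c
      linarith
    refine Complex.norm_deriv_le_of_forall_mem_sphere_norm_le (by positivity) ?_ ?_
    · exact (hd.mono hsub).diffContOnCl_ball subset_rfl
    · exact fun w hw => hb w (hsub (sphere_subset_closedBall hw))
  have hd' : DifferentiableOn ℂ (deriv h) (ball c r) := hd.deriv isOpen_ball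
  have h2 : ∀ z ∈ ball c (r / 2), ‖deriv (deriv h) z‖ ≤ M / (r / 8) / (r / 8) := by
    intro z hz
    have hsub : closedBall z (r / 8) ⊆ ball c (3 * r / 4) := by
      intro w hw
      rw [mem_closedBall] at hw
      rw [mem_ball] at hz ⊢
      have := dist_triangle w z c
      linarith
    have hsub2 : ball c (3 * r / 4) ⊆ ball c r := ball_subset_ball (by linarith)
    refine Complex.norm_deriv_le_of_forall_mem_sphere_norm_le (by positivity) ?_ ?_
    · exact (hd'.mono (hsub.trans hsub2)).diffContOnCl_ball subset_rfl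
    · exact fun w hw => h1 w (hsub (sphere_subset_closedBall hw))
  have hcr : c ∈ ball c (r / 2) := mem_ball_self (by positivity)
  have h3 : ∀ z ∈ ball c (r / 2), ‖deriv h z - deriv h c‖ ≤ M / (r / 8) / (r / 8) * ‖z - c‖ := by
    intro z hz
    refine (convex_ball c (r / 2)).norm_image_sub_le_of_norm_deriv_le (fun w hw => ?_) h2 hcr hz
    exact hd'.differentiableAt (isOpen_ball.mem_nhds (ball_subset_ball (by linarith) hw))
  set s : ℝ := β * r ^ 2 / (128 * M) with hs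
  have hs0 : 0 < s := by positivity
  have hsr : s ≤ r / 16 := by
    have : β ≤ M / (r / 8) := hβ'.trans (h1 c (mem_ball_self (by positivity)))
    calc s ≤ M / (r / 8) * r ^ 2 / (128 * M) := by rw [hs]; gcongr
      _ = r / 16 := by field_simp; norm_num
  have hsub : closedBall c s ⊆ ball c (r / 2) := closedBall_subset_ball (by linarith)
  have hsub' : closedBall c s ⊆ ball c r := hsub.trans (ball_subset_ball (by linarith))
  have h4 : ∀ z ∈ sphere c s, β * s / 2 ≤ ‖h z - h c‖ := by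
    intro z hz
    have hzc : ‖z - c‖ = s := by simpa [dist_eq_norm] using hz
    have hmv := (convex_closedBall c s).norm_image_sub_le_of_norm_deriv_le
      (f := fun w => h w - deriv h c * w) (C := M / (r / 8) / (r / 8) * s) (x := c) (y := z)
      (fun w hw => ?_) (fun w hw => ?_) (mem_closedBall_self hs0.le) (sphere_subset_closedBall hz)
    · have e1 : h z - h c = (h z - deriv h c * z - (h c - deriv h c * c)) + deriv h c * (z - c) := by
        ring
      have e2 : ‖deriv h c * (z - c)‖ ≤ ‖h z - h c‖ + ‖h z - deriv h c * z - (h c - deriv h c * c)‖ := by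
        have : deriv h c * (z - c) = (h z - h c) - (h z - deriv h c * z - (h c - deriv h c * c)) := by
          ring
        rw [this]
        exact norm_sub_le _ _
      rw [norm_mul, hzc] at e2
      rw [hzc] at hmv
      have e3 : M / (r / 8) / (r / 8) * s * s = β * s / 2 := by
        rw [hs]; field_simp; norm_num
      have e4 : β * s ≤ ‖deriv h c‖ * s := by gcongr
      linarith
    · have := hd.differentiableAt (isOpen_ball.mem_nhds (hsub' hw))
      fun_prop
    · have hdw := hd.differentiableAt (isOpen_ball.mem_nhds (hsub' hw))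
      have : deriv (fun w => h w - deriv h c * w) w = deriv h w - deriv h c := by
        have h5 : HasDerivAt (fun w => h w - deriv h c * w) (deriv h w - deriv h c * 1) w :=
          hdw.hasDerivAt.sub ((hasDerivAt_id w).const_mul _)
        rw [h5.deriv, mul_one]
      rw [this]
      refine (h3 w (hsub hw)).trans ?_
      have : ‖w - c‖ ≤ s := by simpa [dist_eq_norm] using hw
      gcongr
  have hdc := hd.differentiableAt (isOpen_ball.mem_nhds (mem_ball_self hr))
  have h5 : ball (h c) (β * s / 2 / 2) ⊆ h '' closedBall c s := by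
    refine DiffContOnCl.ball_subset_image_closedBall ?_ hs0 h4 ?_
    · exact (hd.mono hsub').diffContOnCl_ball subset_rfl
    · have hne : deriv h c ≠ 0 := by
        intro h0
        rw [h0, norm_zero] at hβ'
        linarith
      exact (hdc.hasDerivAt.eventually_ne hne).frequently.filter_mono nhdsWithin_le_nhds
  have e5 : β * s / 2 / 2 = β ^ 2 * r ^ 2 / (512 * M) := by
    rw [hs]; field_simp; norm_num
  rw [← e5]
  exact h5.trans (image_mono hsub')


/-- upper bound for polynomials -/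
theorem poly_upper (p : ℂ[X]) (d : ℕ) (hd : p.natDegree ≤ d) :
    ∃ C : ℝ, 0 ≤ C ∧ ∀ z : ℂ, 1 ≤ ‖z‖ → ‖p.eval z‖ ≤ C * ‖z‖ ^ d := by
  refine ⟨∑ i ∈ Finset.range (p.natDegree + 1), ‖p.coeff i‖, by positivity, fun z hz => ?_⟩
  rw [eval_eq_sum_range, Finset.sum_mul]
  refine norm_sum_le_of_le _ fun i hi => ?_
  rw [norm_mul, norm_pow]
  gcongr
  exact (Nat.lt_succ_iff.mp (Finset.mem_range.mp hi)).trans hd

theorem poly_upper_X (p : ℂ[X]) (d : ℕ) (hd : (X * p).natDegree ≤ d) :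
    ∃ C : ℝ, 0 ≤ C ∧ ∀ z : ℂ, 1 ≤ ‖z‖ → ‖p.eval z‖ ≤ C * ‖z‖ ^ d / ‖z‖ := by
  obtain ⟨C, hC, h⟩ := poly_upper (X * p) d hd
  refine ⟨C, hC, fun z hz => ?_⟩
  rw [le_div_iff₀ (by linarith)]
  have := h z hz
  rw [eval_mul, eval_X, norm_mul] at this
  linarith

theorem natDegree_X_mul_derivative (p : ℂ[X]) : (X * p.derivative).natDegree ≤ p.natDegree := by
  rcases Nat.eq_zero_or_pos p.natDegree with h | h
  · rw [derivative_of_natDegree_zero h]; simp
  · have := natDegree_derivative_lt h.ne'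
    refine natDegree_mul_le.trans ?_
    rw [natDegree_X]
    omega

theorem natDegree_X_mul_eraseLead (p : ℂ[X]) : (X * p.eraseLead).natDegree ≤ p.natDegree := by
  rcases Nat.eq_zero_or_pos p.natDegree with h | h
  · rw [eq_C_of_natDegree_eq_zero h]; simp
  · have := eraseLead_natDegree_le p
    refine natDegree_mul_le.trans ?_
    rw [natDegree_X]
    omega

/-- lower bound for polynomials -/
theorem poly_lower (p : ℂ[X]) (hp : p ≠ 0) :
    ∃ c R : ℝ, 0 < c ∧ 1 ≤ R ∧ ∀ z : ℂ, R ≤ ‖z‖ → c * ‖z‖ ^ p.natDegree ≤ ‖p.eval z‖ := by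
  obtain ⟨C, hC, h⟩ := poly_upper_X p.eraseLead _ (natDegree_X_mul_eraseLead p)
  have hl : 0 < ‖p.leadingCoeff‖ := norm_pos_iff.2 (leadingCoeff_ne_zero.2 hp)
  refine ⟨‖p.leadingCoeff‖ / 2, max 1 (2 * C / ‖p.leadingCoeff‖), by positivity,
    le_max_left _ _, fun z hz => ?_⟩
  have hz1 : 1 ≤ ‖z‖ := (le_max_left _ _).trans hz
  have hz2 : 2 * C / ‖p.leadingCoeff‖ ≤ ‖z‖ := (le_max_right _ _).trans hz
  have hz0 : 0 < ‖z‖ := by linarith
  have h1 := h z hz1
  have h2 : p.eval z = p.eraseLead.eval z + p.leadingCoeff * z ^ p.natDegree := by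
    have := congrArg (Polynomial.eval z) (eraseLead_add_C_mul_X_pow p)
    rw [← this, eval_add, eval_mul, eval_C, eval_pow, eval_X]
  have h3 : C * ‖z‖ ^ p.natDegree / ‖z‖ ≤ ‖p.leadingCoeff‖ / 2 * ‖z‖ ^ p.natDegree := by
    rw [div_le_iff₀ hl] at hz2
    rw [div_le_iff₀ hz0]
    have : 0 ≤ ‖z‖ ^ p.natDegree := by positivity
    nlinarith
  have h4 : ‖p.leadingCoeff * z ^ p.natDegree‖ = ‖p.leadingCoeff‖ * ‖z‖ ^ p.natDegree := by
    rw [norm_mul, norm_pow]
  have h5 : ‖p.leadingCoeff * z ^ p.natDegree‖ ≤ ‖p.eval z‖ + ‖p.eraseLead.eval z‖ := by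
    have : p.leadingCoeff * z ^ p.natDegree = p.eval z - p.eraseLead.eval z := by
      rw [h2]; ring
    rw [this]; exact norm_sub_le _ _
  rw [h4] at h5
  linarith

/-- existence of a primitive -/
theorem exists_primitive (Q : ℂ[X]) :
    ∃ q : ℂ[X], q.derivative = Q ∧ q.natDegree ≤ Q.natDegree + 1 := by
  refine ⟨∑ i ∈ Finset.range (Q.natDegree + 1), C (Q.coeff i / (i + 1)) * X ^ (i + 1), ?_, ?_⟩
  · conv_rhs => rw [Q.as_sum_range_C_mul_X_pow]
    rw [derivative_sum]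
    refine Finset.sum_congr rfl fun i _ => ?_
    rw [derivative_C_mul_X_pow]
    congr 2
    push_cast
    have : (i : ℂ) + 1 ≠ 0 := by exact_mod_cast Nat.succ_ne_zero i
    field_simp
  · refine natDegree_sum_le_of_forall_le _ _ fun i hi => ?_
    refine (natDegree_C_mul_X_pow_le _ _).trans ?_
    have := Finset.mem_range.mp hi
    omega

/-- second order Taylor estimate -/
theorem taylor2 (q : ℂ[X]) (z g : ℂ) (A : ℝ) 
    (h : ∀ w ∈ closedBall z ‖g‖, ‖q.derivative.derivative.eval w‖ ≤ A) :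
    ‖q.eval (z - g) - q.eval z + g * q.derivative.eval z‖ ≤ A * ‖g‖ ^ 2 := by
  have hA : 0 ≤ A := (norm_nonneg _).trans (h z (mem_closedBall_self (norm_nonneg _)))
  have hz : z ∈ closedBall z ‖g‖ := mem_closedBall_self (norm_nonneg _)
  have hg : z - g ∈ closedBall z ‖g‖ := by simp
  have h1 : ∀ w ∈ closedBall z ‖g‖, ‖q.derivative.eval w - q.derivative.eval z‖ ≤ A * ‖g‖ := by
    intro w hw
    have h2 := (convex_closedBall z ‖g‖).norm_image_sub_le_of_norm_deriv_le
      (f := fun w => q.derivative.eval w) (C := A) (x := z) (y := w)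
      (fun w _ => q.derivative.differentiable.differentiableAt) (fun w hw => by
        rw [Polynomial.deriv]; exact h w hw) hz hw
    refine h2.trans ?_
    have : ‖w - z‖ ≤ ‖g‖ := by simpa [dist_eq_norm] using hw
    gcongr
  have h3 := (convex_closedBall z ‖g‖).norm_image_sub_le_of_norm_deriv_le
      (f := fun w => q.eval w - q.derivative.eval z * w) (C := A * ‖g‖) (x := z) (y := z - g)
      (fun w _ => by fun_prop) (fun w hw => by
        have : HasDerivAt (fun w => q.eval w - q.derivative.eval z * w)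
            (q.derivative.eval w - q.derivative.eval z * 1) w :=
          (q.hasDerivAt w).sub ((hasDerivAt_id w).const_mul _)
        rw [this.deriv, mul_one]
        exact h1 w hw) hz hg
  have e1 : q.eval (z - g) - q.derivative.eval z * (z - g) - (q.eval z - q.derivative.eval z * z) =
      q.eval (z - g) - q.eval z + g * q.derivative.eval z := by ring
  rw [e1] at h3
  refine h3.trans (le_of_eq ?_)
  have : z - g - z = -g := by ring
  rw [this, norm_neg]; ring

theorem estimates (P Q D q : ℂ[X]) (hP : P ≠ 0) (hQ : Q ≠ 0) (hD : D = Q * P + P.derivative)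
    (hq : q.derivative = Q) (hqd : q.natDegree ≤ Q.natDegree + 1) :
    ∃ R₁ C₀ C₄ Cu cQ : ℝ, 1 ≤ R₁ ∧ 0 ≤ C₀ ∧ 0 ≤ C₄ ∧ 0 < Cu ∧ 0 < cQ ∧ ∀ z : ℂ, R₁ ≤ ‖z‖ →
      D.eval z ≠ 0 ∧ P.eval z ≠ 0 ∧ ‖P.eval z / D.eval z‖ ≤ C₀ ∧
      ‖q.eval z - q.eval (nm P D z) - 1‖ * ‖q.eval z‖ ≤ C₄ ∧
      ‖q.eval z‖ ≤ Cu * ‖z‖ ^ (Q.natDegree + 1) ∧ cQ * ‖z‖ ^ Q.natDegree ≤ ‖Q.eval z‖ := by
  set n := P.natDegree with hn
  set m := Q.natDegree with hm
  have hQP : Q * P ≠ 0 := mul_ne_zero hQ hP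
  have hdeg : P.derivative.degree < (Q * P).degree := by
    refine (degree_derivative_lt hP).trans_le ?_
    rw [mul_comm]
    exact degree_le_mul_left P hQ
  have hDn : D.natDegree = m + n := by
    rw [hD, natDegree_add_eq_left_of_degree_lt hdeg, natDegree_mul hQ hP]
  have hD0 : D ≠ 0 := by
    intro h
    rw [hD] at h
    have := degree_add_eq_left_of_degree_lt hdeg
    rw [h, degree_zero] at this
    exact hQP (degree_eq_bot.1 this.symm)
  obtain ⟨cD, RD, hcD, hRD, hlD⟩ := poly_lower D hD0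
  obtain ⟨cP, RP, hcP, hRP, hlP⟩ := poly_lower P hP
  obtain ⟨cQ, RQ, hcQ, hRQ, hlQ⟩ := poly_lower Q hQ
  obtain ⟨CP, hCP, huP⟩ := poly_upper P n le_rfl
  obtain ⟨Cq, hCq, huq⟩ := poly_upper q (m + 1) hqd
  obtain ⟨CP', hCP', huP'⟩ := poly_upper_X P.derivative n (natDegree_X_mul_derivative P)
  obtain ⟨CQ', hCQ', huQ'⟩ := poly_upper_X Q.derivative m (natDegree_X_mul_derivative Q)
  rw [hDn] at hlD
  set C₀ := CP / cD with hC₀
  have hC₀0 : 0 ≤ C₀ := by positivity
  set C₃ := 2 ^ (m + 1) * CQ' * C₀ ^ 2 + CP' / cD with hC₃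
  have hC₃0 : 0 ≤ C₃ := by positivity
  refine ⟨max (max RD RP) (max RQ (max 2 (2 * C₀))), C₀, C₃ * (Cq + 1), Cq + 1, cQ, ?_, hC₀0,
    by positivity, by positivity, hcQ, fun z hz => ?_⟩
  · exact hRD.trans ((le_max_left _ _).trans (le_max_left _ _))
  have hz1 : RD ≤ ‖z‖ := ((le_max_left _ _).trans (le_max_left _ _)).trans hz
  have hz2 : RP ≤ ‖z‖ := ((le_max_right _ _).trans (le_max_left _ _)).trans hz
  have hz3 : RQ ≤ ‖z‖ := ((le_max_left _ _).trans (le_max_right _ _)).trans hz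
  have hz4 : 2 ≤ ‖z‖ :=
    (((le_max_left _ _).trans (le_max_right _ _)).trans (le_max_right _ _)).trans hz
  have hz5 : 2 * C₀ ≤ ‖z‖ :=
    (((le_max_right _ _).trans (le_max_right _ _)).trans (le_max_right _ _)).trans hz
  have hz6 : 1 ≤ ‖z‖ := by linarith
  have hz0 : 0 < ‖z‖ := by linarith
  have hDz := hlD z hz1
  have hPz := hlP z hz2
  have hQz := hlQ z hz3
  have hDz0 : 0 < ‖D.eval z‖ := lt_of_lt_of_le (by positivity) hDz
  have hDz0' : D.eval z ≠ 0 := norm_pos_iff.1 hDz0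
  have hPz0 : P.eval z ≠ 0 := norm_pos_iff.1 (lt_of_lt_of_le (by positivity) hPz)
  set g := P.eval z / D.eval z with hg
  have hgn : ‖g‖ ≤ C₀ / ‖z‖ ^ m := by
    rw [hg, norm_div, div_le_div_iff₀ hDz0 (by positivity)]
    calc ‖P.eval z‖ * ‖z‖ ^ m ≤ CP * ‖z‖ ^ n * ‖z‖ ^ m := by gcongr; exact huP z hz6
      _ = C₀ * (cD * ‖z‖ ^ (m + n)) := by rw [hC₀, pow_add]; field_simp
      _ ≤ C₀ * ‖D.eval z‖ := by gcongr
  have hgn' : ‖g‖ ≤ C₀ := hgn.trans (div_le_self hC₀0 (one_le_pow₀ hz6))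
  have huz := huq z hz6
  have huz' : ‖q.eval z‖ ≤ (Cq + 1) * ‖z‖ ^ (m + 1) := by
    refine huz.trans ?_
    gcongr
    linarith
  have hε : ‖q.eval z - q.eval (nm P D z) - 1‖ ≤ C₃ / (‖z‖ ^ m * ‖z‖) := by
    have ht := taylor2 q z g (CQ' * (2 * ‖z‖) ^ m / (‖z‖ / 2)) (fun w hw => by
      rw [hq]
      have hw' : ‖w - z‖ ≤ ‖g‖ := by simpa [dist_eq_norm] using hw
      have hw1 : ‖w‖ ≤ 2 * ‖z‖ := by
        have : ‖w‖ ≤ ‖z‖ + ‖w - z‖ := by
          calc ‖w‖ = ‖z + (w - z)‖ := by congr 1; ring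
            _ ≤ _ := norm_add_le _ _
        linarith
      have hw2 : ‖z‖ / 2 ≤ ‖w‖ := by
        have : ‖z‖ ≤ ‖w‖ + ‖w - z‖ := by
          calc ‖z‖ = ‖w - (w - z)‖ := by congr 1; ring
            _ ≤ _ := norm_sub_le _ _
        linarith
      have hw3 : 1 ≤ ‖w‖ := by linarith
      refine (huQ' w hw3).trans ?_
      gcongr)
    rw [hq] at ht
    have e1 : q.eval z - q.eval (nm P D z) - 1 =
        -(q.eval (z - g) - q.eval z + g * Q.eval z) + -(P.derivative.eval z / D.eval z) := by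
      have e2 : g * Q.eval z = 1 - P.derivative.eval z / D.eval z := by
        have e3 : D.eval z = Q.eval z * P.eval z + P.derivative.eval z := by rw [hD]; simp
        rw [hg]
        field_simp
        rw [e3]; ring
      have e4 : nm P D z = z - g := rfl
      rw [e4, e2]
      ring
    rw [e1]
    refine (norm_add_le _ _).trans ?_
    rw [norm_neg, norm_neg]
    have e5 : ‖P.derivative.eval z / D.eval z‖ ≤ CP' / cD / (‖z‖ ^ m * ‖z‖) := by
      rw [norm_div, div_le_div_iff₀ hDz0 (by positivity)]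
      calc ‖P.derivative.eval z‖ * (‖z‖ ^ m * ‖z‖)
          ≤ CP' * ‖z‖ ^ n / ‖z‖ * (‖z‖ ^ m * ‖z‖) := by gcongr; exact huP' z hz6
        _ = CP' / cD * (cD * ‖z‖ ^ (m + n)) := by rw [pow_add]; field_simp
        _ ≤ CP' / cD * ‖D.eval z‖ := by gcongr
    have e6 : CQ' * (2 * ‖z‖) ^ m / (‖z‖ / 2) * ‖g‖ ^ 2 ≤
        2 ^ (m + 1) * CQ' * C₀ ^ 2 / (‖z‖ ^ m * ‖z‖) := by
      calc CQ' * (2 * ‖z‖) ^ m / (‖z‖ / 2) * ‖g‖ ^ 2
          ≤ CQ' * (2 * ‖z‖) ^ m / (‖z‖ / 2) * (C₀ / ‖z‖ ^ m) ^ 2 := by gcongr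
        _ = 2 ^ (m + 1) * CQ' * C₀ ^ 2 / (‖z‖ ^ m * ‖z‖) := by
          rw [mul_pow]; field_simp; ring
    rw [hC₃, add_div]
    linarith
  refine ⟨hDz0', hPz0, hgn', ?_, huz', hQz⟩
  calc ‖q.eval z - q.eval (nm P D z) - 1‖ * ‖q.eval z‖
      ≤ C₃ / (‖z‖ ^ m * ‖z‖) * ((Cq + 1) * ‖z‖ ^ (m + 1)) := by gcongr
    _ = C₃ * (Cq + 1) := by rw [pow_succ]; field_simp

end Pool.Agent.LibNewton
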