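import Mathlib

/-!
Rational functions `a (1 + P/(QP + P'))` and sharing a value with the derivative in the plane.
-/

open Polynomial Filter Topology

namespace Pool.Agent.LibNewton

/-- The denominator `QP + P'`. -/
noncomputable def den (P Q : ℂ[X]) : ℂ[X] := Q * P + derivative P

/-- The rational function `R = a (1 + P/(QP + P'))`, as a function on the plane (its values at
the zeros of `QP + P'` play no role below). -/
noncomputable def ratFun (a : ℂ) (P Q : ℂ[X]) (z : ℂ) : ℂ :=
  a * (1 + P.eval z / (den P Q).eval z)

/-- The rational function `f` takes the finite value `a` at the point `z` of the plane, as a map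
to the sphere: `f(w)` tends to `a` as `w` tends to `z`, `w ≠ z`. -/
def TakesValueAt (f : ℂ → ℂ) (a z : ℂ) : Prop := Tendsto f (𝓝[≠] z) (𝓝 a)

/-- `f` and `f'` share the value `a` in the plane (ignoring multiplicities). -/
def SharesWithDeriv (f : ℂ → ℂ) (a : ℂ) : Prop :=
  ∀ z : ℂ, TakesValueAt f a z ↔ TakesValueAt (deriv f) a z

end Pool.Agent.LibNewton
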