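import Pool.Agent.LibNewton.Base

open Polynomial Set Filter Topology Metric

namespace Pool.Agent.LibNewton

theorem differentiableAt_iter {P D : ℂ[X]} {k : ℕ} : ∀ {z : ℂ},
    (∀ i < k, D.eval ((nm P D)^[i] z) ≠ 0) → DifferentiableAt ℂ ((nm P D)^[k]) z := by
  induction k with
  | zero => intro z _; exact differentiableAt_id
  | succ k ih =>
    intro z h
    rw [Function.iterate_succ']
    exact DifferentiableAt.comp z (hasStrictDerivAt_nm (h k (by omega))).hasDerivAt.differentiableAt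
      (ih (fun i hi => h i (by omega)))

theorem deriv_nm {P Q D : ℂ[X]} (hD : D = Q * P + P.derivative) {y : ℂ} (hy : D.eval y ≠ 0) :
    deriv (nm P D) y = P.eval y * (Q * D + D.derivative).eval y / D.eval y ^ 2 := by
  rw [(hasStrictDerivAt_nm hy).hasDerivAt.deriv]
  have e : P.derivative.eval y = D.eval y - Q.eval y * P.eval y := by rw [hD]; simp
  rw [e, eval_add, eval_mul]
  field_simp
  ring

/-- `(a + b * log k)^2` is small compared to `k`. -/
theorem log_sq_small (a b c : ℝ) (hc : 0 < c) :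
    ∀ᶠ k : ℕ in atTop, (a + b * Real.log k) ^ 2 ≤ c * k := by
  have h1 : (fun x : ℝ => Real.log x) =o[atTop] fun x : ℝ => x ^ (1 / 2 : ℝ) :=
    isLittleO_log_rpow_atTop (by norm_num)
  have h2 : (fun _ : ℝ => a) =o[atTop] fun x : ℝ => x ^ (1 / 2 : ℝ) := by
    refine (Asymptotics.isLittleO_const_left).2 (Or.inr ?_)
    exact tendsto_norm_atTop_atTop.comp (tendsto_rpow_atTop (by norm_num))
  have h3 : (fun x : ℝ => a + b * Real.log x) =o[atTop] fun x : ℝ => x ^ (1 / 2 : ℝ) :=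
    h2.add (h1.const_mul_left b)
  have h4 := (h3.pow (n := 2) (by norm_num)).bound hc
  have h5 := tendsto_natCast_atTop_atTop.eventually h4
  filter_upwards [h5] with k hk
  have e : (((k : ℕ) : ℝ) ^ (1 / 2 : ℝ)) ^ 2 = k := by
    rw [← Real.rpow_natCast, ← Real.rpow_mul (by positivity)]
    norm_num
  rw [e, Real.norm_of_nonneg (by positivity), Real.norm_of_nonneg (by positivity)] at hk
  exact hk

theorem sum_inv_le (k : ℕ) : ∑ j ∈ Finset.range k, (1 : ℝ) / (j + 1) ≤ 1 + Real.log k := by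
  have := harmonic_le_one_add_log k
  refine le_trans (le_of_eq ?_) this
  unfold harmonic
  push_cast
  refine Finset.sum_congr rfl fun j _ => ?_
  rw [one_div]

theorem no_H (P Q D : ℂ[X]) (hP : ∀ z, P.eval z = 0 → P.derivative.eval z ≠ 0) (hQ : Q ≠ 0)
    (hD : D = Q * P + P.derivative) {zs : ℂ} (hroot : D.eval zs = 0)
    (H : ∀ z, (Q * D + D.derivative).eval z = 0 → P.eval z = 0 ∨ D.eval z = 0) : False := by
  have hP0 : P ≠ 0 := by
    rintro rfl
    exact hP 0 (by simp) (by simp)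
  obtain ⟨q, hq, hqd⟩ := exists_primitive Q
  obtain ⟨R₁, C₀, C₄, Cu, cQ, hR₁, hC₀, hC₄, hCu, hcQ, hest⟩ := estimates P Q D q hP0 hQ hD hq hqd
  set m := Q.natDegree with hm
  have S : Setup P D R₁ C₀ :=
    { R0 := by linarith
      C0 := hC₀
      nocommon := fun y hy => by
        rw [hD, eval_add, eval_mul, hy, mul_zero, zero_add]
        exact hP y hy
      droot := ⟨zs, hroot⟩
      quot := fun y hy => (hest y hy).2.2.1
      crit := fun y h1 h2 => by
        rw [deriv_nm hD h1]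
        refine div_ne_zero (mul_ne_zero h2 fun h3 => ?_) (pow_ne_zero _ h1)
        rcases H y h3 with h | h
        · exact h2 h
        · exact h1 h }
  obtain ⟨B, hB⟩ := (isCompact_closedBall (0 : ℂ) R₁).exists_bound_of_continuousOn
    (f := fun z => q.eval z) (by fun_prop)
  set L : ℝ := max (B + 1) (max (2 * C₄) 1) with hL
  have hL1 : B + 1 ≤ L := le_max_left _ _
  have hL2 : 2 * C₄ ≤ L := (le_max_left _ _).trans (le_max_right _ _)
  have hL3 : 1 ≤ L := (le_max_right _ _).trans (le_max_right _ _)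
  set N := nm P D with hN
  have hpet1 : ∀ z : ℂ, L ≤ (-q.eval z).re → R₁ ≤ ‖z‖ := by
    intro z hz
    by_contra hlt
    have h1 := hB z (by simpa using (not_le.1 hlt).le)
    have h2 : (-q.eval z).re ≤ ‖-q.eval z‖ := Complex.re_le_norm _
    rw [norm_neg] at h2
    linarith
  have hpetn : ∀ z : ℂ, ∀ t : ℝ, t ≤ (-q.eval z).re → t ≤ ‖q.eval z‖ := by
    intro z t hz
    have h2 : (-q.eval z).re ≤ ‖-q.eval z‖ := Complex.re_le_norm _
    rw [norm_neg] at h2
    linarith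
  have hpet2 : ∀ z : ℂ, ∀ t : ℝ, L ≤ t → t ≤ (-q.eval z).re →
      ‖q.eval z - q.eval (N z) - 1‖ ≤ C₄ / t := by
    intro z t ht hz
    have h1 := (hest z (hpet1 z (ht.trans hz))).2.2.2.1
    have h2 := hpetn z t hz
    have h3 : 0 < t := by linarith
    rw [le_div_iff₀ h3]
    refine le_trans ?_ h1
    gcongr
  have hstep : ∀ z : ℂ, L ≤ (-q.eval z).re → (-q.eval z).re + 1 / 2 ≤ (-q.eval (N z)).re := by
    intro z hz
    have h1 := hpet2 z L le_rfl hz
    have h2 : C₄ / L ≤ 1 / 2 := by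
      rw [div_le_iff₀ (by linarith)]; linarith
    have h3 : |(q.eval z - q.eval (N z) - 1).re| ≤ ‖q.eval z - q.eval (N z) - 1‖ :=
      Complex.abs_re_le_norm _
    have h4 := (abs_le.1 (h3.trans (h1.trans h2))).1
    simp only [Complex.sub_re, Complex.one_re, Complex.neg_re] at h4 ⊢
    linarith
  have hiter : ∀ (k : ℕ) (z : ℂ), L ≤ (-q.eval z).re → L + k / 2 ≤ (-q.eval (N^[k] z)).re := by
    intro k
    induction k with
    | zero => intro z hz; simpa using hz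
    | succ k ih =>
      intro z hz
      have h1 := ih z hz
      rw [Function.iterate_succ_apply']
      have h2 := hstep (N^[k] z) (by have : (0:ℝ) ≤ k := by positivity
                                     linarith)
      push_cast
      linarith
  have hsum : ∀ (k : ℕ) (z : ℂ), L ≤ (-q.eval z).re →
      ‖q.eval z - q.eval (N^[k] z) - k‖ ≤ 2 * C₄ * ∑ j ∈ Finset.range k, (1 : ℝ) / (j + 1) := by
    intro k
    induction k with
    | zero => intro z hz; simp
    | succ k ih =>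
      intro z hz
      have h1 := ih z hz
      have h2 := hiter k z hz
      have hk : (0:ℝ) ≤ k := by positivity
      have h3 := hpet2 (N^[k] z) (L + k / 2) (by linarith) h2
      have h4 : C₄ / (L + k / 2) ≤ 2 * C₄ * (1 / (k + 1)) := by
        rw [div_le_iff₀ (by linarith)]
        rw [mul_one_div, div_mul_eq_mul_div, le_div_iff₀ (by linarith)]
        nlinarith
      rw [Function.iterate_succ_apply', Finset.sum_range_succ]
      push_cast
      have e : q.eval z - q.eval (N (N^[k] z)) - ((k : ℂ) + 1) =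
          (q.eval z - q.eval (N^[k] z) - k) + (q.eval (N^[k] z) - q.eval (N (N^[k] z)) - 1) := by
        ring
      rw [e]
      refine (norm_add_le _ _).trans ?_
      linarith
  -- a point in the petal
  obtain ⟨z₀, hz₀⟩ : ∃ z₀ : ℂ, L < (-q.eval z₀).re := by
    have hdeg : 0 < (q + C ((L : ℂ) + 1)).degree := by
      by_contra h
      have h1 : (q + C ((L : ℂ) + 1)).degree ≤ 0 := not_lt.1 h
      have h2 := derivative_of_natDegree_zero (natDegree_eq_zero_iff_degree_le_zero.2 h1)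
      rw [derivative_add, derivative_C, add_zero, hq] at h2
      exact hQ h2
    obtain ⟨z₀, hz⟩ := Complex.exists_root hdeg
    refine ⟨z₀, ?_⟩
    rw [IsRoot, eval_add, eval_C] at hz
    have : -q.eval z₀ = (L : ℂ) + 1 := by linear_combination -hz
    rw [this]
    simp
  obtain ⟨ρ, hρ, hρs⟩ : ∃ ρ > 0, closedBall z₀ ρ ⊆ {z | L ≤ (-q.eval z).re} := by
    have hcont : Continuous fun z : ℂ => (-q.eval z).re := by fun_prop
    have h1 : {z : ℂ | L < (-q.eval z).re} ∈ 𝓝 z₀ :=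
      (isOpen_lt continuous_const hcont).mem_nhds hz₀
    obtain ⟨ρ, hρ, h2⟩ := Metric.nhds_basis_closedBall.mem_iff.1 h1
    exact ⟨ρ, hρ, fun z hz => (show L < (-q.eval z).re from h2 hz).le⟩
  have hDne : ∀ (z : ℂ), L ≤ (-q.eval z).re → ∀ i, D.eval (N^[i] z) ≠ 0 := by
    intro z hz i
    have h1 := hiter i z hz
    have hk : (0:ℝ) ≤ i := by positivity
    exact (hest _ (hpet1 _ (by linarith))).1
  -- Cauchy estimate
  set T : ℕ → ℝ := fun k => ‖Q.eval z₀‖ + (2 * C₄ * (1 + Real.log k)) / ρ with hT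
  have hcauchy : ∀ k : ℕ, ‖Q.eval (N^[k] z₀)‖ * ‖deriv (N^[k]) z₀‖ ≤ T k := by
    intro k
    have hdiff : ∀ z ∈ closedBall z₀ ρ, DifferentiableAt ℂ (N^[k]) z := fun z hz =>
      differentiableAt_iter fun i _ => hDne z (hρs hz) i
    have h1 : ‖deriv (fun z => q.eval z - q.eval (N^[k] z) - k) z₀‖ ≤
        (2 * C₄ * (1 + Real.log k)) / ρ := by
      refine Complex.norm_deriv_le_of_forall_mem_sphere_norm_le hρ ?_ ?_
      · refine DifferentiableOn.diffContOnCl_ball (U := closedBall z₀ ρ) (fun z hz => ?_) subset_rfl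
        have h2 : DifferentiableAt ℂ (fun z => q.eval (N^[k] z)) z :=
          DifferentiableAt.comp z (q.differentiable _) (hdiff z hz)
        exact (((q.differentiable z).sub h2).sub_const _).differentiableWithinAt
      · intro z hz
        refine (hsum k z (hρs (sphere_subset_closedBall hz))).trans ?_
        gcongr
        exact sum_inv_le k
    have h3 : HasDerivAt (fun z => q.eval z - q.eval (N^[k] z) - k)
        (Q.eval z₀ - Q.eval (N^[k] z₀) * deriv (N^[k]) z₀) z₀ := by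
      have h4 := q.hasDerivAt z₀
      have h5 := (q.hasDerivAt (N^[k] z₀)).comp z₀
        (hdiff z₀ (mem_closedBall_self hρ.le)).hasDerivAt
      rw [hq] at h4 h5
      exact (h4.sub h5).sub_const _
    rw [h3.deriv] at h1
    have h6 : ‖Q.eval (N^[k] z₀) * deriv (N^[k]) z₀‖ ≤
        ‖Q.eval z₀‖ + ‖Q.eval z₀ - Q.eval (N^[k] z₀) * deriv (N^[k]) z₀‖ := by
      have : Q.eval (N^[k] z₀) * deriv (N^[k]) z₀ =
        Q.eval z₀ - (Q.eval z₀ - Q.eval (N^[k] z₀) * deriv (N^[k]) z₀) := by ring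
      rw [this]
      refine (norm_sub_le _ _).trans (le_of_eq ?_)
      congr 2
      ring
    rw [norm_mul] at h6
    rw [hT]
    linarith
  -- growth of the orbit
  have hgrow : ∀ k : ℕ, (k : ℝ) ≤ 2 * Cu * ‖N^[k] z₀‖ ^ (m + 1) := by
    intro k
    have h1 := hiter k z₀ hz₀.le
    have h2 := hpetn _ _ h1
    have hk : (0:ℝ) ≤ k := by positivity
    have h3 := (hest _ (hpet1 _ (by linarith))).2.2.2.2.1
    linarith
  have hlarge : ∀ᶠ k : ℕ in atTop, 2 * R₁ ≤ ‖N^[k] z₀‖ := by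
    have h1 : ∀ᶠ k : ℕ in atTop, 2 * Cu * (2 * R₁) ^ (m + 1) < k :=
      tendsto_natCast_atTop_atTop.eventually_gt_atTop _
    filter_upwards [h1] with k hk
    by_contra hlt
    have h2 := hgrow k
    have h3 : ‖N^[k] z₀‖ ^ (m + 1) ≤ (2 * R₁) ^ (m + 1) := by
      gcongr
      exact (not_le.1 hlt).le
    nlinarith
  set C₅ : ℝ := 2 + 2 * Cu * C₀ with hC₅
  have hC₅0 : 0 < C₅ := by positivity
  set κ : ℝ := cQ ^ 2 / (2048 * C₅ * (2 * Cu)) / (‖zs - z₀‖ + 1) with hκ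
  have hκ0 : 0 < κ := by positivity
  have hlog := log_sq_small (‖Q.eval z₀‖ + 2 * C₄ / ρ) (2 * C₄ / ρ) κ hκ0
  obtain ⟨k, ⟨hk1, hk2⟩, hk3⟩ := ((hlarge.and hlog).and (eventually_gt_atTop 0)).exists
  have hTk : T k = ‖Q.eval z₀‖ + 2 * C₄ / ρ + 2 * C₄ / ρ * Real.log k := by
    rw [hT]; simp only; ring
  rw [← hTk] at hk2
  set zk := N^[k] z₀ with hzk
  have hzk1 : 1 ≤ ‖zk‖ := by linarith
  have hr : 0 < ‖zk‖ / 2 := by linarith
  have hnormw : ∀ w ∈ ball zk (‖zk‖ / 2), ‖zk‖ / 2 ≤ ‖w‖ ∧ ‖w‖ ≤ 3 / 2 * ‖zk‖ := by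
    intro w hw
    rw [mem_ball, dist_eq_norm] at hw
    constructor
    · have : ‖zk‖ ≤ ‖w‖ + ‖w - zk‖ := by
        calc ‖zk‖ = ‖w - (w - zk)‖ := by congr 1; ring
          _ ≤ _ := norm_sub_le _ _
      linarith
    · have : ‖w‖ ≤ ‖zk‖ + ‖w - zk‖ := by
        calc ‖w‖ = ‖zk + (w - zk)‖ := by congr 1; ring
          _ ≤ _ := norm_add_le _ _
      linarith
  obtain ⟨ψ, hψd, hψc, hψ⟩ := lift_iter S (c := zk) hr
    (fun w hw => (hest w (by have := (hnormw w hw).1; linarith)).2.1) k z₀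
    (fun i _ => hDne z₀ hz₀.le i) rfl
  have hczk : zk ∈ ball zk (‖zk‖ / 2) := mem_ball_self hr
  have hψk : HasDerivAt ψ (deriv ψ zk) zk :=
    (hψd.differentiableAt (isOpen_ball.mem_nhds hczk)).hasDerivAt
  have hprod : deriv (N^[k]) z₀ * deriv ψ zk = 1 := by
    have h1 : HasDerivAt (N^[k]) (deriv (N^[k]) z₀) (ψ zk) := by
      rw [hψc]
      exact (differentiableAt_iter fun i _ => hDne z₀ hz₀.le i).hasDerivAt
    have h2 := h1.comp zk hψk
    have h3 : (N^[k] ∘ ψ) =ᶠ[𝓝 zk] id := by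
      filter_upwards [isOpen_ball.mem_nhds hczk] with w hw
      exact (hψ w hw).2.1
    exact (h2.congr_of_eventuallyEq h3.symm).unique (hasDerivAt_id zk)
  have hprodn : ‖deriv (N^[k]) z₀‖ * ‖deriv ψ zk‖ = 1 := by
    rw [← norm_mul, hprod, norm_one]
  set X := ‖deriv (N^[k]) z₀‖ with hX
  set β := ‖deriv ψ zk‖ with hβ
  have hβ0 : 0 < β := by
    rcases (norm_nonneg (deriv ψ zk)).lt_or_eq with h | h
    · exact h
    · rw [hβ, ← h, mul_zero] at hprodn
      exact absurd hprodn (by norm_num)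
  have hX0 : 0 < X := by
    rcases (norm_nonneg (deriv (N^[k]) z₀)).lt_or_eq with h | h
    · exact h
    · rw [hX, ← h, zero_mul] at hprodn
      exact absurd hprodn (by norm_num)
  have hQk : cQ * ‖zk‖ ^ m ≤ ‖Q.eval zk‖ := (hest zk (by linarith)).2.2.2.2.2
  have hQβ : cQ * ‖zk‖ ^ m ≤ T k * β := by
    refine hQk.trans ?_
    have h1 := hcauchy k
    calc ‖Q.eval zk‖ = ‖Q.eval zk‖ * X * β := by rw [mul_assoc, hprodn, mul_one]
      _ ≤ T k * β := by gcongr
  have hTk0 : 0 < T k := by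
    have : 0 < cQ * ‖zk‖ ^ m := by positivity
    by_contra hneg
    have : T k * β ≤ 0 := mul_nonpos_of_nonpos_of_nonneg (not_lt.1 hneg) hβ0.le
    linarith
  have hzkp : ‖zk‖ ≤ ‖zk‖ ^ (m + 1) := le_self_pow₀ hzk1 (by omega)
  have hMb : ∀ w ∈ ball zk (‖zk‖ / 2), ‖ψ w‖ ≤ C₅ * ‖zk‖ ^ (m + 1) := by
    intro w hw
    have h1 := (hψ w hw).2.2.2
    have h2 := hnormw w hw
    have h3 : max R₁ ‖w‖ ≤ 2 * ‖zk‖ := max_le (by linarith) (by linarith)
    have h4 := hgrow k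
    calc ‖ψ w‖ ≤ 2 * ‖zk‖ + k * C₀ := by linarith
      _ ≤ 2 * ‖zk‖ ^ (m + 1) + (2 * Cu * ‖zk‖ ^ (m + 1)) * C₀ := by gcongr
      _ = C₅ * ‖zk‖ ^ (m + 1) := by rw [hC₅]; ring
  have hMpos : 0 < C₅ * ‖zk‖ ^ (m + 1) := by positivity
  have hbl := bloch hr hMpos hβ0 hψd hMb le_rfl
  rw [hψc] at hbl
  have hrad : ‖zs - z₀‖ < β ^ 2 * (‖zk‖ / 2) ^ 2 / (512 * (C₅ * ‖zk‖ ^ (m + 1))) := by
    rw [lt_div_iff₀ (by positivity)]
    have h1 : (cQ * ‖zk‖ ^ m) ^ 2 ≤ (T k) ^ 2 * β ^ 2 := by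
      rw [← mul_pow]
      gcongr
    have h2 : (T k) ^ 2 * (‖zs - z₀‖ + 1) ≤ cQ ^ 2 / (2048 * C₅) * ‖zk‖ ^ (m + 1) := by
      have h3 : (T k) ^ 2 * (‖zs - z₀‖ + 1) ≤ κ * k * (‖zs - z₀‖ + 1) := by gcongr
      refine h3.trans ?_
      have h4 : κ * k * (‖zs - z₀‖ + 1) ≤ κ * (2 * Cu * ‖zk‖ ^ (m + 1)) * (‖zs - z₀‖ + 1) := by
        gcongr
        exact hgrow k
      refine h4.trans (le_of_eq ?_)
      rw [hκ]
      field_simp
    have h5 : (T k) ^ 2 * ((‖zs - z₀‖ + 1) * (512 * (C₅ * ‖zk‖ ^ (m + 1)))) ≤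
        (T k) ^ 2 * (β ^ 2 * (‖zk‖ / 2) ^ 2) := by
      calc (T k) ^ 2 * ((‖zs - z₀‖ + 1) * (512 * (C₅ * ‖zk‖ ^ (m + 1))))
          = ((T k) ^ 2 * (‖zs - z₀‖ + 1)) * (512 * (C₅ * ‖zk‖ ^ (m + 1))) := by ring
        _ ≤ (cQ ^ 2 / (2048 * C₅) * ‖zk‖ ^ (m + 1)) * (512 * (C₅ * ‖zk‖ ^ (m + 1))) := by gcongr
        _ = (cQ * ‖zk‖ ^ m) ^ 2 * (‖zk‖ / 2) ^ 2 := by
          rw [pow_succ]; field_simp; ring
        _ ≤ ((T k) ^ 2 * β ^ 2) * (‖zk‖ / 2) ^ 2 := by gcongr
        _ = _ := by ring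
    have h6 := le_of_mul_le_mul_left h5 (by positivity)
    refine lt_of_lt_of_le ?_ h6
    gcongr
    linarith
  have hmem : zs ∈ ball z₀ (β ^ 2 * (‖zk‖ / 2) ^ 2 / (512 * (C₅ * ‖zk‖ ^ (m + 1)))) := by
    rw [mem_ball, dist_eq_norm]; exact hrad
  obtain ⟨w, hw, hwz⟩ := hbl hmem
  exact (hψ w hw).1 hk3 (by rw [hwz]; exact hroot)

end Pool.Agent.LibNewton
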